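import Pool.Agent.Q231.GPS.Final

/-!
# MP_3edecc_lc: runtime of the strictly elitist (1+1) GP* on ORDER

Trees, literals, ORDER, HVL-Prime (`Q231.Smo.hvl`): `Pool/Agent/Q231/Smo/Defs.lean`.
The number of operations `1 + Poisson(1)`, the algorithm and `expectedTime`:
`Pool/Agent/Q231/GPS/Defs.lean`.
-/

namespace Pool.Agent.Results.MP_3edecc_lc.QuadraticBound

open Q231.Smo Q231.GPS

/-- There is an absolute constant `C` such that for every `n ≥ 1` and every initial tree `X` (the
empty tree included) the expected optimization time of the (1+1) GP* on ORDER is at most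
`C (n ^ 2 + n T)`, where `T` is the number of leaves of `X`. -/
theorem result : ∃ C : ℝ, ∀ (n : ℕ) [NeZero n] (X : Ind n),
    Q231.GPS.expectedTime X ≤ ENNReal.ofReal (C * ((n : ℝ) ^ 2 + n * size X)) :=
  Q231.GPS.main

end Pool.Agent.Results.MP_3edecc_lc.QuadraticBound
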